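import Pool.Agent.H826Z.Iid.Tr

/-! The unit ball of the first order Sobolev space on the line. -/

set_option autoImplicit false

namespace Pool.Agent.H826Z.Iid

open Pool.Agent.Helper579.Iid MeasureTheory Set Filter
open scoped ENNReal Topology

/-- the increments of `f` on `J` are dominated by the integrals of `G` -/
def Dm (J : Set ℝ) (f : ℝ → ℝ) (G : ℝ → ℝ≥0∞) : Prop :=
  ∀ a ∈ J, ∀ b ∈ J, a ≤ b → ENNReal.ofReal |f b - f a| ≤ ∫⁻ x in Ioc a b, G x

lemma multi_one_one : multi 1 1 = {![0], ![1]} := by decide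

lemma mderiv_1 (φ : (Fin 1 → ℝ) → ℝ) : mderiv ![1] φ = pderiv 0 φ := by
  unfold mderiv
  simp [List.finRange_succ]

lemma mderiv_0 (φ : (Fin 1 → ℝ) → ℝ) : mderiv ![0] φ = φ := by
  unfold mderiv
  simp [List.finRange_succ]

lemma zero_eq1 : (0 : Fin 1 → ℕ) = ![0] := by decide

lemma pow_eLpNorm {X : Type} [MeasurableSpace X] (g : X → ℝ) (μ : Measure X) {P : ℕ}
    (hP : 0 < P) : eLpNorm g P μ ^ ((P : ℝ≥0∞).toReal) = ∫⁻ x, ‖g x‖ₑ ^ P ∂μ := by
  have h0 : (P : ℝ) ≠ 0 := by positivity
  rw [eLpNorm_eq_lintegral_rpow_enorm_toReal (by exact_mod_cast hP.ne') (by simp),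
    ENNReal.toReal_natCast, ← ENNReal.rpow_mul, one_div_mul_cancel h0, ENNReal.rpow_one]
  simp only [ENNReal.rpow_natCast]

lemma sobNorm_iff (D : Set (Fin 1 → ℝ)) (g : (Fin 1 → ℕ) → (Fin 1 → ℝ) → ℝ) {P : ℕ}
    (hP : 0 < P) : sobNorm D 1 P g ≤ 1 ↔
      (∫⁻ x in D, ‖g ![0] x‖ₑ ^ P) + ∫⁻ x in D, ‖g ![1] x‖ₑ ^ P ≤ 1 := by
  unfold sobNorm
  rw [if_neg (by simp), multi_one_one, Finset.sum_insert (by decide), Finset.sum_singleton,
    pow_eLpNorm _ _ hP, pow_eLpNorm _ _ hP, ENNReal.toReal_natCast]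
  have h0 : (0 : ℝ) < P := by exact_mod_cast hP
  constructor
  · intro h
    have h1 := ENNReal.rpow_le_rpow h (z := P) h0.le
    rwa [← ENNReal.rpow_mul, ENNReal.one_rpow, one_div_mul_cancel h0.ne', ENNReal.rpow_one] at h1
  · intro h
    exact (ENNReal.rpow_le_rpow h (by positivity)).trans (by rw [ENNReal.one_rpow])

lemma lintegral_lift {S : Set ℝ} (hS : MeasurableSet S) (g : ℝ → ℝ≥0∞) :
    ∫⁻ x in lift S, g (x 0) = ∫⁻ t in S, g t :=
  (mp_lift hS).lintegral_comp_emb pi1.measurableEmbedding g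

lemma hasDerivAt_const_vec {φ : (Fin 1 → ℝ) → ℝ} (hφ : Differentiable ℝ φ) (t : ℝ) :
    HasDerivAt (fun t : ℝ => φ fun _ => t) (pderiv 0 φ fun _ => t) t := by
  have h1 : HasDerivAt (fun t : ℝ => (fun _ => t : Fin 1 → ℝ)) (Pi.single 0 1) t := by
    rw [hasDerivAt_pi]
    intro i
    rw [Subsingleton.elim i 0]
    exact hasDerivAt_id' t
  exact (hφ _).hasFDerivAt.comp_hasDerivAt t h1

lemma pderiv_coord {ψ ψ' : ℝ → ℝ} (h : ∀ t, HasDerivAt ψ (ψ' t) t) (x : Fin 1 → ℝ) :
    pderiv 0 (fun x : Fin 1 → ℝ => ψ (x 0)) x = ψ' (x 0) := by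
  have hd : Differentiable ℝ fun x : Fin 1 → ℝ => ψ (x 0) :=
    Differentiable.comp (g := ψ) (fun t => (h t).differentiableAt) (differentiable_apply 0)
  have h1 := hasDerivAt_const_vec hd (x 0)
  rw [const_zero] at h1
  exact h1.unique (h _)

theorem ball_in {S : Set ℝ} (hS : IsOpen S) {A B : ℝ} (hAB : A < B) (hSJ : S ⊆ Ioo A B)
    {f : ℝ → ℝ} {G : ℝ → ℝ≥0∞} (hG : Measurable G) (hD : Dm (Ioo A B) f G)
    (hfin : ∫⁻ x in Ioo A B, G x ≠ ∞) {P : ℕ} (hP : 0 < P)
    (hn : (∫⁻ x in S, ‖f x‖ₑ ^ P) + ∫⁻ x in S, G x ^ P ≤ 1) : f ∈ ball S P := by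
  classical
  have hSm := hS.measurableSet
  set Gr : ℝ → ℝ := (Ioo A B).indicator fun x => (G x).toReal with hGr
  have hGi : Integrable Gr := by
    rw [hGr, integrable_indicator_iff measurableSet_Ioo]
    exact integrable_toReal_of_lintegral_ne_top hG.aemeasurable hfin
  have hG0 : ∀ x, 0 ≤ Gr x := fun x => indicator_nonneg (fun _ _ => ENNReal.toReal_nonneg) x
  set u : ℝ → ℝ := fun x => ∫ t in (0 : ℝ)..x, Gr t with hu
  have hle : ∀ a ∈ Ioo A B, ∀ b ∈ Ioo A B, a ≤ b → |f b - f a| ≤ |u b - u a| := by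
    intro a ha b hb hab
    have hsub : Ioc a b ⊆ Ioo A B := fun x hx => ⟨ha.1.trans hx.1, hx.2.trans_lt hb.2⟩
    have hfin' : ∫⁻ x in Ioc a b, G x ≠ ∞ :=
      ne_top_of_le_ne_top hfin (lintegral_mono_set hsub)
    have h1 : u b - u a = (∫⁻ x in Ioc a b, G x).toReal := by
      simp only [hu]
      rw [intervalIntegral.integral_interval_sub_left hGi.intervalIntegrable
        hGi.intervalIntegrable, intervalIntegral.integral_of_le hab,
        ← integral_toReal hG.aemeasurable (ae_lt_top hG hfin')]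
      exact setIntegral_congr_fun measurableSet_Ioc fun x hx => indicator_of_mem (hsub hx) _
    rw [h1, abs_of_nonneg ENNReal.toReal_nonneg]
    exact (ENNReal.ofReal_le_iff_le_toReal hfin').1 (hD a ha b hb hab)
  have hle' : ∀ a ∈ Ioo A B, ∀ b ∈ Ioo A B, |f b - f a| ≤ |u b - u a| := by
    intro a ha b hb
    rcases le_total a b with h | h
    · exact hle a ha b hb h
    · rw [abs_sub_comm (f b), abs_sub_comm (u b)]
      exact hle b hb a ha h
  have huc : Continuous u := hGi.continuous_primitive 0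
  have hfc : ContinuousOn f (Ioo A B) := by
    intro a ha
    rw [ContinuousWithinAt, tendsto_iff_norm_sub_tendsto_zero]
    have h1 : Tendsto (fun b => |u b - u a|) (𝓝[Ioo A B] a) (𝓝 0) := by
      have : Tendsto (fun b => |u b - u a|) (𝓝 a) (𝓝 |u a - u a|) :=
        ((huc.tendsto a).sub_const _).abs
      rw [sub_self, abs_zero] at this
      exact this.mono_left nhdsWithin_le_nhds
    refine squeeze_zero' (Eventually.of_forall fun _ => norm_nonneg _) ?_ h1
    filter_upwards [self_mem_nhdsWithin] with b hb using hle' a ha b hb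
  have hder : ∀ᵐ x, x ∈ Ioo A B → |deriv f x| ≤ Gr x := by
    filter_upwards [LocallyIntegrable.ae_hasDerivAt_integral hGi.locallyIntegrable] with x hx hxJ
    by_cases hd : DifferentiableAt ℝ f x
    · have h1 := (hasDerivAt_iff_tendsto_slope.1 hd.hasDerivAt).abs
      have h2 := (hasDerivAt_iff_tendsto_slope.1 (hx 0)).abs
      rw [abs_of_nonneg (hG0 x)] at h2
      refine le_of_tendsto_of_tendsto h1 h2 ?_
      filter_upwards [mem_nhdsWithin_of_mem_nhds (isOpen_Ioo.mem_nhds hxJ)] with y hy
      simp only [slope_def_field, abs_div]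
      exact div_le_div_of_nonneg_right (hle' x hxJ y hy) (abs_nonneg _)
    · rw [deriv_zero_of_not_differentiableAt hd, abs_zero]
      exact hG0 x
  have hderS : ∀ᵐ x ∂(volume.restrict S), |deriv f x| ≤ Gr x := by
    rw [ae_restrict_iff' hSm]
    filter_upwards [hder] with x hx hxS using hx (hSJ hxS)
  have hdi : IntegrableOn (deriv f) S :=
    hGi.integrableOn.mono' (measurable_deriv f).aestronglyMeasurable hderS
  have hcont : ContinuousOn (fun x : Fin 1 → ℝ => f (x 0)) (lift S) :=
    (hfc.mono hSJ).comp (continuous_apply 0).continuousOn fun _ hx => hx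
  have hLm : MeasurableSet (lift S) := pi1.measurable hSm
  have hfl := hcont.locallyIntegrableOn (μ := volume) hLm
  refine ⟨hcont, fun α => if α = ![0] then fun x => f (x 0) else fun x => deriv f (x 0),
    by rw [zero_eq1]; simp, ?_, ?_⟩
  · intro α hα
    rw [multi_one_one] at hα
    simp only [Finset.mem_insert, Finset.mem_singleton] at hα
    rcases hα with rfl | rfl
    · simp only [if_true]
      refine ⟨hfl, hfl, fun φ _ _ _ => ?_⟩
      rw [mderiv_0]
      simp
    · have e1 : (![1] : Fin 1 → ℕ) ≠ ![0] := by decide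
      simp only [if_neg e1]
      refine ⟨hfl, ?_, fun φ h1 h2 h3 => ?_⟩
      · have : IntegrableOn (fun x : Fin 1 → ℝ => deriv f (x 0)) (lift S) :=
          ((mp_lift hSm).integrable_comp_emb pi1.measurableEmbedding).2 hdi
        exact this.locallyIntegrableOn
      · rw [mderiv_1]
        have hφd : Differentiable ℝ φ := h1.differentiable (by simp)
        set ψ : ℝ → ℝ := fun t => φ fun _ => t with hψ
        have hψd : ∀ t, deriv ψ t = pderiv 0 φ fun _ => t :=
          fun t => (hasDerivAt_const_vec hφd t).deriv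
        set T : Set ℝ := (fun x : Fin 1 → ℝ => x 0) '' tsupport φ with hT
        have hTc : IsCompact T := h2.isCompact.image (continuous_apply 0)
        have hTS : T ⊆ S := by
          rintro _ ⟨x, hx, rfl⟩
          exact h3 hx
        have hz : ∀ t, t ∉ T → ψ t = 0 ∧ deriv ψ t = 0 := by
          intro t ht
          have h4 : (fun _ => t : Fin 1 → ℝ) ∉ tsupport φ := fun h => ht ⟨_, h, rfl⟩
          refine ⟨image_eq_zero_of_notMem_tsupport (f := φ) h4, ?_⟩
          rw [hψd]
          unfold pderiv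
          have : fderiv ℝ φ (fun _ => t) = 0 := by
            by_contra h5
            exact h4 (support_fderiv_subset ℝ h5)
          rw [this]
          rfl
        obtain ⟨a, b, ha, hab, hb, hTab⟩ : ∃ a b, A < a ∧ a ≤ b ∧ b < B ∧ T ⊆ Ioo a b := by
          rcases T.eq_empty_or_nonempty with h | h
          · exact ⟨(A + B) / 2, (A + B) / 2, by linarith, le_rfl, by linarith, by simp [h]⟩
          · obtain ⟨m, hm⟩ := hTc.exists_isLeast h
            obtain ⟨M, hM⟩ := hTc.exists_isGreatest h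
            have h5 := hSJ (hTS hm.1)
            have h6 := hSJ (hTS hM.1)
            have h7 := hm.2 hM.1
            refine ⟨(A + m) / 2, (M + B) / 2, by linarith [h5.1], by linarith [h5.1, h6.2],
              by linarith [h6.2], fun t ht => ⟨?_, ?_⟩⟩
            · linarith [hm.2 ht, h5.1]
            · linarith [hM.2 ht, h6.2]
        have hconv : ∀ k : ℝ → ℝ, (∀ t, t ∉ T → k t = 0) → ∫ t in S, k t = ∫ t in a..b, k t := by
          intro k hk
          rw [intervalIntegral.integral_of_le hab,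
            setIntegral_eq_integral_of_forall_compl_eq_zero fun t ht => hk t fun h => ht (hTS h),
            setIntegral_eq_integral_of_forall_compl_eq_zero fun t ht => hk t fun h =>
              ht (Ioo_subset_Ioc_self (hTab h))]
        have e2 : ∫ x in lift S, f (x 0) * pderiv 0 φ x = ∫ t in S, f t * deriv ψ t := by
          rw [← integral_lift hSm]
          simp only [hψd, const_zero]
        have e3 : ∫ x in lift S, deriv f (x 0) * φ x = ∫ t in S, deriv f t * ψ t := by
          rw [← integral_lift hSm]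
          simp only [hψ, const_zero]
        rw [e2, e3, hconv _ fun t ht => by rw [(hz t ht).2, mul_zero],
          hconv _ fun t ht => by rw [(hz t ht).1, mul_zero]]
        have hIcc : uIcc a b ⊆ Ioo A B := by
          rw [uIcc_of_le hab]
          exact fun x hx => ⟨ha.trans_le hx.1, hx.2.trans_lt hb⟩
        have hmin : min 0 a ≤ max 0 b := (min_le_left _ _).trans (le_max_left _ _)
        have huAC : AbsolutelyContinuousOnInterval u a b := by
          refine (IntervalIntegrable.absolutelyContinuousOnInterval_intervalIntegral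
            (a := min 0 a) (b := max 0 b) (c := 0) hGi.intervalIntegrable ?_).mono ?_
          · rw [uIcc_of_le hmin]
            exact ⟨min_le_left _ _, le_max_left _ _⟩
          · rw [uIcc_of_le hmin, uIcc_of_le hab]
            exact Icc_subset_Icc (min_le_right _ _) (le_max_right _ _)
        have hfAC : AbsolutelyContinuousOnInterval f a b := by
          rw [absolutelyContinuousOnInterval_iff] at huAC ⊢
          intro ε hε
          obtain ⟨δ, hδ, h⟩ := huAC ε hε
          refine ⟨δ, hδ, fun E hE hs => lt_of_le_of_lt ?_ (h E hE hs)⟩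
          refine Finset.sum_le_sum fun i hi => ?_
          have h5 := hE.1 i hi
          rw [Real.dist_eq, Real.dist_eq]
          exact hle' _ (hIcc h5.2) _ (hIcc h5.1)
        have hψc : ContDiff ℝ 1 ψ :=
          (h1.of_le (by exact_mod_cast le_top)).comp (contDiff_pi.2 fun _ => contDiff_id)
        have hψAC : AbsolutelyContinuousOnInterval ψ a b :=
          hψc.contDiffOn.absolutelyContinuousOnInterval
        rw [hfAC.integral_mul_deriv_eq_deriv_mul hψAC,
          (hz a fun h => lt_irrefl _ (hTab h).1).1, (hz b fun h => lt_irrefl _ (hTab h).2).1]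
        simp
  · rw [sobNorm_iff _ _ hP]
    have e1 : (![1] : Fin 1 → ℕ) ≠ ![0] := by decide
    simp only [if_true, if_neg e1]
    rw [lintegral_lift hSm fun t => ‖f t‖ₑ ^ P, lintegral_lift hSm fun t => ‖deriv f t‖ₑ ^ P]
    refine le_trans (add_le_add le_rfl (lintegral_mono_ae ?_)) hn
    filter_upwards [hderS, ae_restrict_mem hSm] with x hx hxS
    gcongr
    rw [Real.enorm_eq_ofReal_abs]
    rw [hGr, indicator_of_mem (hSJ hxS)] at hx
    exact (ENNReal.ofReal_le_ofReal hx).trans ENNReal.ofReal_toReal_le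

lemma avg_close {f : ℝ → ℝ} {S : Set ℝ} (hS : MeasurableSet S) {c h v ε : ℝ} (hh : 0 < h)
    (hsub : Icc c (c + h) ⊆ S) (hc : ContinuousOn f S) (hε : ∀ x ∈ Icc c (c + h), |f x - v| ≤ ε) :
    IntegrableOn (fun x => f x * bs c h x) S ∧ |(∫ x in S, f x * bs c h x) - v| ≤ KB * ε := by
  have hz : ∀ x, x ∉ Icc c (c + h) → bs c h x = 0 := by
    intro x hx
    rw [mem_Icc, not_and_or, not_le, not_le] at hx
    exact bs_zero hh (hx.imp (fun h => by linarith) fun h => by linarith)
  have hbc := (bs_contDiff c h).continuous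
  have i1 : IntegrableOn (fun x => f x * bs c h x) (Icc c (c + h)) :=
    ((hc.mono hsub).mul hbc.continuousOn).integrableOn_Icc
  have i2 : IntegrableOn (fun x => v * bs c h x) (Icc c (c + h)) :=
    (continuous_const.mul hbc).continuousOn.integrableOn_Icc
  have e1 : ∫ x in S, f x * bs c h x = ∫ x in Icc c (c + h), f x * bs c h x :=
    setIntegral_eq_of_subset_of_forall_sdiff_eq_zero hS hsub fun x hx => by
      rw [hz x hx.2, mul_zero]
  have e2 : ∫ x in Icc c (c + h), v * bs c h x = v := by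
    rw [integral_const_mul, setIntegral_eq_integral_of_forall_compl_eq_zero hz, integral_bs hh,
      mul_one]
  refine ⟨i1.of_forall_sdiff_eq_zero hS fun x hx => by rw [hz x hx.2, mul_zero], ?_⟩
  have e3 : (∫ x in S, f x * bs c h x) - v = ∫ x in Icc c (c + h), (f x - v) * bs c h x := by
    simp only [sub_mul]
    rw [integral_sub i1 i2, e1, e2]
  rw [e3]
  have h4 : ‖∫ x in Icc c (c + h), (f x - v) * bs c h x‖ ≤
      (ε * (KB / h)) * volume.real (Icc c (c + h)) := by
    apply norm_setIntegral_le_of_norm_le_const measure_Icc_lt_top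
    intro x hx
    rw [Real.norm_eq_abs, abs_mul]
    exact mul_le_mul (hε x hx) (abs_bs_le hh x) (abs_nonneg _) ((abs_nonneg _).trans (hε x hx))
  rw [Real.norm_eq_abs, Real.volume_real_Icc_of_le (by linarith)] at h4
  refine h4.trans (le_of_eq ?_)
  field_simp
  ring

theorem ball_out {A B : ℝ} {f : ℝ → ℝ} {P : ℕ} (hP : 0 < P) (hf : f ∈ ball (Ioo A B) P) :
    ContinuousOn f (Ioo A B) ∧ ∃ G : ℝ → ℝ≥0∞, Measurable G ∧ Dm (Ioo A B) f G ∧
      ∫⁻ x in Ioo A B, G x ^ P ≤ 1 := by
  obtain ⟨hc, g, -, hw, hn⟩ := hf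
  have hSm : MeasurableSet (Ioo A B) := measurableSet_Ioo
  have hfc : ContinuousOn f (Ioo A B) :=
    hc.comp (f := fun t : ℝ => (fun _ => t : Fin 1 → ℝ))
      (continuous_pi fun _ => continuous_id).continuousOn fun _ ht => ht
  rw [sobNorm_iff _ _ hP] at hn
  obtain ⟨-, w1, w2⟩ := hw ![1] (by rw [multi_one_one]; decide)
  set g1 : ℝ → ℝ := fun t => g ![1] fun _ => t with hg1
  have hg1e : ∀ x, g ![1] x = g1 (x 0) := fun x => by simp only [hg1, const_zero]
  have hm : AEStronglyMeasurable g1 (volume.restrict (Ioo A B)) := by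
    have h1 := w1.aestronglyMeasurable.comp_measurePreserving (mp_lift hSm).symm
    refine h1.congr (Eventually.of_forall fun t => ?_)
    simp only [Function.comp, pi1_symm, hg1]
  have hae := hm.ae_eq_mk
  refine ⟨hfc, fun t => ‖hm.mk g1 t‖ₑ, hm.stronglyMeasurable_mk.measurable.enorm, ?_, ?_⟩
  · intro a ha b hb hab
    rcases hab.eq_or_lt with rfl | hab
    · simp
    have hsub : Icc a b ⊆ Ioo A B := fun x hx => ⟨ha.1.trans_le hx.1, hx.2.trans_lt hb.2⟩
    refine ENNReal.le_of_forall_pos_le_add fun ε hε _ => ?_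
    have hK := one_le_KB
    set η : ℝ := ε / (2 * KB) with hη
    have hη0 : 0 < η := by positivity
    obtain ⟨δ₁, hδ₁, h₁⟩ := Metric.continuousWithinAt_iff.1 (hfc a ha) η hη0
    obtain ⟨δ₂, hδ₂, h₂⟩ := Metric.continuousWithinAt_iff.1 (hfc b hb) η hη0
    set h : ℝ := min (b - a) (min (δ₁ / 2) (δ₂ / 2)) with hh
    have hh0 : 0 < h := lt_min (by linarith) (lt_min (by linarith) (by linarith))
    have hh1 : h ≤ b - a := min_le_left _ _
    have hh2 : h ≤ δ₁ / 2 := (min_le_right _ _).trans (min_le_left _ _)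
    have hh3 : h ≤ δ₂ / 2 := (min_le_right _ _).trans (min_le_right _ _)
    have s1 : Icc a (a + h) ⊆ Ioo A B := (Icc_subset_Icc le_rfl (by linarith)).trans hsub
    have s2 : Icc (b - h) (b - h + h) ⊆ Ioo A B :=
      (Icc_subset_Icc (by linarith) (by linarith)).trans hsub
    obtain ⟨i1, b1⟩ := avg_close (v := f a) (ε := η) hSm hh0 s1 hfc fun x hx => by
      have := h₁ (s1 hx) (by rw [Real.dist_eq, abs_lt]; constructor <;> linarith [hx.1, hx.2])
      rw [Real.dist_eq] at this
      exact this.le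
    obtain ⟨i2, b2⟩ := avg_close (v := f b) (ε := η) hSm hh0 s2 hfc fun x hx => by
      have := h₂ (s2 hx) (by rw [Real.dist_eq, abs_lt]; constructor <;> linarith [hx.1, hx.2])
      rw [Real.dist_eq] at this
      exact this.le
    set ψ : ℝ → ℝ := As a h (b - h) h with hψ
    have hz : ∀ t, t ∉ Icc (a + h / 4) (b - h / 4) → ψ t = 0 := by
      intro t ht
      rw [mem_Icc, not_and_or, not_le, not_le] at ht
      simp only [hψ, As]
      rcases ht with ht | ht
      · rw [Bs_zero hh0 ht.le, Bs_zero hh0 (by linarith), sub_zero]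
      · rw [Bs_one hh0 (by linarith), Bs_one hh0 (by linarith), sub_self]
    have hcl : IsClosed {x : Fin 1 → ℝ | x 0 ∈ Icc (a + h / 4) (b - h / 4)} :=
      isClosed_Icc.preimage (continuous_apply 0)
    have hts : tsupport (fun x : Fin 1 → ℝ => ψ (x 0)) ⊆
        {x : Fin 1 → ℝ | x 0 ∈ Icc (a + h / 4) (b - h / 4)} := by
      refine closure_minimal (fun x hx => ?_) hcl
      by_contra hcon
      exact hx (hz _ hcon)
    have hcp : IsCompact {x : Fin 1 → ℝ | x 0 ∈ Icc (a + h / 4) (b - h / 4)} := by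
      have : {x : Fin 1 → ℝ | x 0 ∈ Icc (a + h / 4) (b - h / 4)} =
          Set.univ.pi fun _ => Icc (a + h / 4) (b - h / 4) := by
        ext x
        simp only [mem_ofPred_eq, mem_univ_pi, Fin.forall_fin_one]
      rw [this]
      exact isCompact_univ_pi fun _ => isCompact_Icc
    have hw2 := w2 (fun x => ψ (x 0)) ((As_contDiff _ _ _ _).comp (contDiff_apply ℝ ℝ 0))
      (hcp.of_isClosed_subset (isClosed_tsupport _) hts) (fun x hx => by
        have := hts hx
        exact hsub ⟨by linarith [this.1], by linarith [this.2]⟩)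
    rw [mderiv_1] at hw2
    have hpd := pderiv_coord (ψ := ψ) (As_hasDerivAt a h (b - h) h)
    simp only [hpd, hg1e] at hw2
    rw [integral_lift hSm fun t => f t * (bs a h t - bs (b - h) h t),
      integral_lift hSm fun t => g1 t * ψ t] at hw2
    simp only [mul_sub] at hw2
    rw [integral_sub i1 i2] at hw2
    have h3 : ENNReal.ofReal |∫ t in Ioo A B, g1 t * ψ t| ≤ ∫⁻ x in Ioc a b, ‖hm.mk g1 x‖ₑ := by
      rw [← Real.enorm_eq_ofReal_abs]
      refine (enorm_integral_le_lintegral_enorm _).trans ?_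
      have h4 : ∫⁻ x in Ioo A B, ‖g1 x * ψ x‖ₑ ≤
          ∫⁻ x in Ioo A B, (Ioc a b).indicator (fun x => ‖hm.mk g1 x‖ₑ) x := by
        refine lintegral_mono_ae ?_
        filter_upwards [hae] with x hx
        by_cases hxm : x ∈ Ioc a b
        · rw [indicator_of_mem hxm, enorm_mul, hx]
          refine mul_le_of_le_one_right' ?_
          rw [Real.enorm_eq_ofReal_abs]
          exact ENNReal.ofReal_le_one.2 (abs_As_le _ _ _ _ _)
        · rw [hz x fun h => hxm ⟨by linarith [h.1], by linarith [h.2]⟩]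
          simp
      refine h4.trans ((setLIntegral_le_lintegral _ _).trans ?_)
      rw [lintegral_indicator measurableSet_Ioc]
    have h5 : |f b - f a| ≤ |∫ t in Ioo A B, g1 t * ψ t| + ε := by
      have e : KB * η = ε / 2 := by
        rw [hη]
        field_simp
      rw [e, abs_le] at b1 b2
      simp only [Fin.sum_univ_one, Matrix.cons_val_zero, pow_one] at hw2
      have := le_abs_self (∫ t in Ioo A B, g1 t * ψ t)
      have := neg_abs_le (∫ t in Ioo A B, g1 t * ψ t)
      rw [abs_le]
      constructor <;> linarith [b1.1, b1.2, b2.1, b2.2]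
    refine (ENNReal.ofReal_le_ofReal h5).trans ?_
    rw [ENNReal.ofReal_add (abs_nonneg _) (NNReal.coe_nonneg ε), ENNReal.ofReal_coe_nnreal]
    gcongr
  · refine le_trans (le_of_eq ?_) (le_add_self.trans hn)
    simp only [hg1e]
    rw [lintegral_lift hSm fun t => ‖g1 t‖ₑ ^ P]
    refine lintegral_congr_ae ?_
    filter_upwards [hae] with x hx
    rw [hx]

end Pool.Agent.H826Z.Iid
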