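import Pool.Agent.Helper579.IidCone

/-! Statements of the planar parts (square against a thin triangle). -/

set_option autoImplicit false

namespace Pool.Agent.H826Z.Iid

open Pool.Agent.Helper579.Iid MeasureTheory Set Filter
open scoped ENNReal Topology

/-- the open triangle with vertices `(0,0)`, `(L,0)`, `(L,2/L)`; its area is one -/
def Tri (L : ℝ) : Set (Fin 2 → ℝ) := {x | 0 < x 1 ∧ x 0 < L ∧ L ^ 2 * x 1 < 2 * x 0}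

def S_TRI : Prop :=
  (Admissible USq ∧ Convex ℝ USq) ∧
    ∀ L : ℝ, 1 ≤ L → Admissible (Tri L) ∧ Convex ℝ (Tri L) ∧ volume (Tri L) = 1

def S_SQ2 : Prop := ∃ C : ℝ, minErr USq 2 1 ∞ .ran 0 ≤ ENNReal.ofReal C

def S_TRI2 : Prop :=
  ∀ C : ℝ, ∃ L : ℝ, 1 ≤ L ∧ ∀ n : ℕ, ENNReal.ofReal C ≤ minErr (Tri L) 2 1 ∞ .ran n

def S_SQ1 : Prop := ∃ C : ℝ, ∀ᶠ n in atTop, scaled USq 1 4 ∞ .ran n ≤ ENNReal.ofReal C

def S_TRI1 : Prop :=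
  ∀ C : ℝ, ∃ L : ℝ, 1 ≤ L ∧ ∀ᶠ n in atTop, ENNReal.ofReal C ≤ scaled (Tri L) 1 4 ∞ .ran n

end Pool.Agent.H826Z.Iid
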