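import Pool.Agent.H826Z.Iid.Ball

/-! Statements of the one-dimensional bounds. -/

set_option autoImplicit false

namespace Pool.Agent.H826Z.Iid

open Pool.Agent.Helper579.Iid MeasureTheory Set Filter
open scoped ENNReal Topology

/-- `K` intervals of length `1/K` separated by gaps of length `1/K` -/
def DK (K : ℕ) : Set ℝ := ⋃ i ∈ Finset.range K, Ioo (2 * (i : ℝ) / K) ((2 * (i : ℝ) + 1) / K)

def S_UP : Prop := ∀ n : ℕ, 1 ≤ n →
  e1 (Ioo 0 1) 1000 n * ENNReal.ofReal ((n : ℝ) ^ (999 / 1000 : ℝ)) ≤ 290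

def S_ADM : Prop := ∀ K : ℕ, 1 ≤ K →
  IsOpen (DK K) ∧ volume (DK K) = 1 ∧ Admissible (lift (DK K))

def S_LOW : Prop := ∃ K : ℕ, 1 ≤ K ∧ ∀ᶠ n : ℕ in atTop,
  300 ≤ e1 (DK K) 1000 n * ENNReal.ofReal ((n : ℝ) ^ (999 / 1000 : ℝ))

end Pool.Agent.H826Z.Iid
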