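import Pool.Agent.Helper579.IidLower
import Pool.Agent.Helper579.IidKernel

/-! Transfer of the one-dimensional problem to the real line. -/

set_option autoImplicit false

namespace Pool.Agent.H826Z.Iid

open Pool.Agent.Helper579.Iid MeasureTheory Set Filter
open scoped ENNReal Topology

/-- a subset of the line, as a subset of the one-dimensional coordinate space -/
def lift (S : Set ℝ) : Set (Fin 1 → ℝ) := {x | x 0 ∈ S}

noncomputable def pi1 : (Fin 1 → ℝ) ≃ᵐ ℝ := MeasurableEquiv.funUnique (Fin 1) ℝ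

lemma pi1_apply (x : Fin 1 → ℝ) : pi1 x = x 0 := rfl

lemma pi1_symm (t : ℝ) : pi1.symm t = fun _ => t := by
  funext i
  have : i = 0 := Subsingleton.elim _ _
  subst this
  exact pi1.apply_symm_apply t

lemma const_zero (x : Fin 1 → ℝ) : (fun _ => x 0) = x := by
  funext i
  rw [Subsingleton.elim i 0]

lemma mp_all : MeasurePreserving pi1 volume volume := volume_preserving_funUnique (Fin 1) ℝ

lemma mp_lift {S : Set ℝ} (hS : MeasurableSet S) :
    MeasurePreserving pi1 (volume.restrict (lift S)) (volume.restrict S) :=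
  mp_all.restrict_preimage hS

lemma volume_lift {S : Set ℝ} (hS : MeasurableSet S) : volume (lift S) = volume S :=
  mp_all.measure_preimage hS.nullMeasurableSet

lemma unif_lift {S : Set ℝ} (hS : MeasurableSet S) (h1 : volume S = 1) :
    unif (lift S) = volume.restrict (lift S) := by
  unfold unif
  rw [volume_lift hS, h1, inv_one, one_smul]

lemma eLpNorm_lift {S : Set ℝ} (hS : MeasurableSet S) (g : ℝ → ℝ) (p : ℝ≥0∞) :
    eLpNorm (fun x : Fin 1 → ℝ => g (x 0)) p (volume.restrict (lift S)) =
      eLpNorm g p (volume.restrict S) := by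
  rw [← (mp_lift hS).map_eq, pi1.measurableEmbedding.eLpNorm_map_measure]
  rfl

lemma integral_lift {S : Set ℝ} (hS : MeasurableSet S) (g : ℝ → ℝ) :
    ∫ x in lift S, g (x 0) = ∫ t in S, g t :=
  (mp_lift hS).integral_comp' g

/-- methods on the line -/
structure M1 (S : Set ℝ) (n : ℕ) where
  Ω : Type
  mΩ : MeasurableSpace Ω
  μ : Measure Ω
  prob : IsProbabilityMeasure μ
  X : Ω → Fin n → ℝ
  measX : Measurable X
  law : μ.map X = Measure.pi fun _ => volume.restrict S
  φ : Ω → (Fin n → ℝ) → ℝ → ℝ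
  memLp : ∀ ω v, MemLp (φ ω v) ∞ (volume.restrict S)

noncomputable def M1.err {S : Set ℝ} {n : ℕ} (A : M1 S n) (f : ℝ → ℝ) (ω : A.Ω) : ℝ≥0∞ :=
  eLpNorm (fun t => f t - A.φ ω (fun i => f (A.X ω i)) t) ∞ (volume.restrict S)

def ball (S : Set ℝ) (P : ℕ) : Set (ℝ → ℝ) :=
  {f | (fun x : Fin 1 → ℝ => f (x 0)) ∈ sobBall (lift S) 1 P}

noncomputable def M1.error {S : Set ℝ} {n : ℕ} (A : M1 S n) (P : ℕ) : ℝ≥0∞ :=
  ⨆ f ∈ ball S P, @upperInt A.Ω A.mΩ A.μ fun ω => A.err f ω

noncomputable def e1 (S : Set ℝ) (P n : ℕ) : ℝ≥0∞ := ⨅ A : M1 S n, A.error P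

noncomputable def M1.toM {S : Set ℝ} {n : ℕ} (A : M1 S n) (hS : MeasurableSet S)
    (h1 : volume S = 1) : Method (lift S) n ∞ :=
  let _ := A.mΩ
  { Ω := A.Ω
    mΩ := A.mΩ
    μ := A.μ
    prob := A.prob
    X := fun ω i => pi1.symm (A.X ω i)
    measX := measurable_pi_lambda _ fun i =>
      pi1.symm.measurable.comp ((measurable_pi_apply i).comp A.measX)
    law := by
      have : IsFiniteMeasure (volume.restrict S) := ⟨by simp [h1]⟩
      have h2 := measurePreserving_pi (fun _ : Fin n => volume.restrict S)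
        (fun _ : Fin n => volume.restrict (lift S)) (f := fun _ => pi1.symm)
        fun _ => (mp_lift hS).symm
      rw [unif_lift hS h1, ← h2.map_eq, ← A.law, Measure.map_map h2.measurable A.measX]
      rfl
    φ := fun ω v x => A.φ ω v (x 0)
    memLp := fun ω v => (A.memLp ω v).comp_measurePreserving (mp_lift hS) }

noncomputable def ofM {S : Set ℝ} {n : ℕ} (A : Method (lift S) n ∞) (hS : MeasurableSet S)
    (h1 : volume S = 1) : M1 S n :=
  let _ := A.mΩ
  { Ω := A.Ω
    mΩ := A.mΩ
    μ := A.μ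
    prob := A.prob
    X := fun ω i => pi1 (A.X ω i)
    measX := measurable_pi_lambda _ fun i =>
      pi1.measurable.comp ((measurable_pi_apply i).comp A.measX)
    law := by
      have : IsFiniteMeasure (volume.restrict S) := ⟨by simp [h1]⟩
      have h2 := measurePreserving_pi (fun _ : Fin n => volume.restrict (lift S))
        (fun _ : Fin n => volume.restrict S) (f := fun _ => pi1) fun _ => mp_lift hS
      rw [← h2.map_eq, ← unif_lift hS h1, ← A.law, Measure.map_map h2.measurable A.measX]
      rfl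
    φ := fun ω v t => A.φ ω v (pi1.symm t)
    memLp := fun ω v => (A.memLp ω v).comp_measurePreserving (mp_lift hS).symm }

lemma minErr_eq {S : Set ℝ} (hS : MeasurableSet S) (h1 : volume S = 1) (P n : ℕ) :
    minErr (lift S) 1 P ∞ .ran n = e1 S P n := by
  unfold minErr e1
  apply le_antisymm
  · refine le_iInf fun A => iInf_le_of_le (A.toM hS h1) ?_
    refine iSup₂_le fun F hF => ?_
    have hF' : (fun t => F fun _ => t) ∈ ball S P := by
      show (fun x : Fin 1 → ℝ => F fun _ => x 0) ∈ sobBall (lift S) 1 P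
      simpa only [const_zero] using hF
    refine le_iSup₂_of_le (f := fun f (_ : f ∈ ball S P) =>
      @upperInt A.Ω A.mΩ A.μ fun ω => A.err f ω) _ hF' (le_of_eq ?_)
    congr 1
    funext ω
    unfold M1.err
    rw [← eLpNorm_lift hS]
    simp only [const_zero]
    unfold Method.err
    congr 1
  · refine le_iInf fun A => iInf_le_of_le (ofM A hS h1) ?_
    refine iSup₂_le fun f hf => ?_
    refine le_iSup₂_of_le (f := fun f (_ : f ∈ sobBall (lift S) 1 P) =>
      @upperInt A.Ω A.mΩ A.μ fun ω => A.err f ω) _ hf (le_of_eq ?_)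
    congr 1
    funext ω
    unfold M1.err
    rw [← eLpNorm_lift hS]
    unfold Method.err
    congr 1
    funext x
    congr 1
    show A.φ ω _ (pi1.symm (pi1 x)) = _
    rw [pi1.symm_apply_apply]
    rfl

end Pool.Agent.H826Z.Iid
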